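import Pool.Agent.H411R3.J.DecY

/-!
PROJECT JONES, TaskDec, part (X2): the braiding acts by the scalar `lam` on every homomorphic image
of the irreducible module of dimension `cc N d` in `V_N ⊗ V_N`.
-/

set_option autoImplicit false

namespace Pool.Agent.H411R3.J

open Matrix Finset Pool.Agent.H550R3.Jones
open scoped Kronecker

section
variable {ι κ μ : Type} [Fintype ι] [DecidableEq ι] [Fintype κ] [DecidableEq κ]
  [Fintype μ] [DecidableEq μ]

theorem int_comp {M : WM ι} {M' : WM κ} {M'' : WM μ} {A : Matrix κ ι ℂ} {B : Matrix μ κ ℂ}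
    (hA : IsInt M M' A) (hB : IsInt M' M'' B) : IsInt M M'' (B * A) := by
  refine ⟨?_, ?_, ?_⟩
  · rw [Matrix.mul_assoc, hA.e, ← Matrix.mul_assoc, hB.e, Matrix.mul_assoc]
  · rw [Matrix.mul_assoc, hA.f, ← Matrix.mul_assoc, hB.f, Matrix.mul_assoc]
  · intro i j h
    rw [Matrix.mul_apply] at h
    obtain ⟨k, _, hk⟩ := Finset.exists_ne_zero_of_sum_ne_zero h
    rw [hB.k i k (left_ne_zero_of_mul hk), hA.k k j (right_ne_zero_of_mul hk)]

theorem int_sub_smul {M : WM ι} {M' : WM κ} {A B : Matrix κ ι ℂ} (a : ℂ)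
    (hA : IsInt M M' A) (hB : IsInt M M' B) : IsInt M M' (A - a • B) := by
  refine ⟨?_, ?_, ?_⟩
  · rw [Matrix.sub_mul, Matrix.mul_sub, hA.e, Matrix.smul_mul, Matrix.mul_smul, hB.e]
  · rw [Matrix.sub_mul, Matrix.mul_sub, hA.f, Matrix.smul_mul, Matrix.mul_smul, hB.f]
  · intro i j h
    by_cases h1 : A i j = 0
    · by_cases h2 : B i j = 0
      · exact absurd (by simp [h1, h2]) h
      · exact hB.k i j h2
    · exact hA.k i j h1

theorem int_zero {u : ℂ} (hu : Gen u) {c : ℕ} {M : WM ι} {χ : Matrix ι (Fin c) ℂ}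
    (hχ : IsInt (irr (u ^ 2) c) M χ) (h0 : ∀ (z : Fin c), (z : ℕ) = 0 → ∀ p, χ p z = 0) :
    χ = 0 := by
  have key : ∀ n : ℕ, ∀ h : n < c, ∀ p, χ p ⟨n, h⟩ = 0 := by
    intro n
    induction n with
    | zero => intro h p; exact h0 ⟨0, h⟩ rfl p
    | succ n ih =>
      intro h p
      have h1 := congrFun (congrFun hχ.f p) ⟨n, by omega⟩
      rw [Matrix.mul_apply, Matrix.mul_apply] at h1
      have h2 : ∑ j, M.F p j * χ j ⟨n, by omega⟩ = 0 := by
        apply sum_eq_zero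
        intro j _
        rw [ih (by omega) j]
        simp
      rw [h2, sum_eq_single (⟨n + 1, h⟩ : Fin c)] at h1
      · simp only [irr, if_true] at h1
        rcases mul_eq_zero.mp h1 with h3 | h3
        · exact h3
        · exact absurd h3 (hu.2 (n + 1) (by omega))
      · intro b _ hb
        simp only [irr]
        rw [if_neg]
        · simp
        · intro hb'
          exact hb (Fin.ext (by simpa using hb'))
      · intro h3
        exact absurd (mem_univ _) h3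
  ext p j
  exact key j j.2 p

end

variable {N : ℕ}

theorem WE_sum (v : ℂ) (x : Fin N × Fin N → ℂ) (i j : Fin N) (hi : (i : ℕ) + 1 < N)
    (hj : (j : ℕ) + 1 < N) :
    ∑ q, (W v N).E (i, j) q * x q =
      br v ((N : ℤ) - ((i : ℕ) + 1 : ℕ)) * v ^ ((N : ℤ) - 1 - 2 * (j : ℕ)) * x (⟨i + 1, hi⟩, j) +
      br v ((N : ℤ) - ((j : ℕ) + 1 : ℕ)) * x (i, ⟨j + 1, hj⟩) := by
  have hE : ∀ q, (W v N).E (i, j) q = (irr v N).E i q.1 * (irr v N).K v 1 j q.2 +
      (1 : Matrix (Fin N) (Fin N) ℂ) i q.1 * (irr v N).E j q.2 := fun q => rfl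
  simp only [hE, add_mul, sum_add_distrib]
  congr 1
  · rw [Fintype.sum_prod_type, sum_eq_single (⟨i + 1, hi⟩ : Fin N)]
    · rw [sum_eq_single j]
      · simp only [irr, WM.K, diagonal_apply_eq, one_mul, if_true]
      · intro b _ hb
        simp only [WM.K]
        rw [diagonal_apply_ne _ (Ne.symm hb)]
        simp
      · simp
    · intro a _ ha
      apply sum_eq_zero
      intro b _
      simp only [irr]
      rw [if_neg]
      · simp
      · intro h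
        exact ha (Fin.ext h)
    · simp
  · rw [Fintype.sum_prod_type, sum_eq_single i]
    · rw [sum_eq_single (⟨j + 1, hj⟩ : Fin N)]
      · simp only [irr, one_apply_eq, one_mul, if_true]
      · intro b _ hb
        simp only [irr]
        rw [if_neg]
        · simp
        · intro h
          exact hb (Fin.ext h)
      · simp
    · intro a _ ha
      apply sum_eq_zero
      intro b _
      rw [one_apply_ne (Ne.symm ha)]
      simp
    · simp

/-- the components of a highest weight vector -/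
theorem hw_rec {u : ℂ} (hu : Gen u) (d : ℕ) (hd : d < N) (x : Fin N × Fin N → ℂ)
    (hx : ∀ i j : Fin N, ∑ q, (W (u ^ 2) N).E (i, j) q * x q = 0) :
    ∀ k : ℕ, ∀ hk : k ≤ d,
      (∏ i ∈ range k, br (u ^ 2) ((N : ℤ) - 1 - i)) * x (⟨k, by omega⟩, ⟨d - k, by omega⟩) =
      (-1) ^ k * (u ^ 2) ^ ((k : ℤ) * (2 * d - N - k)) *
        (∏ i ∈ range k, br (u ^ 2) ((N : ℤ) - d + i)) * x (⟨0, by omega⟩, ⟨d, hd⟩) := by
  have hv : (u ^ 2 : ℂ) ≠ 0 := pow_ne_zero 2 hu.1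
  intro k
  induction k with
  | zero => intro _; simp
  | succ k ih =>
    intro hk
    have h1 := ih (by omega)
    have h2 := hx ⟨k, by omega⟩ ⟨d - (k + 1), by omega⟩
    rw [WE_sum _ _ _ _ (by simp only; omega) (by simp only; omega)] at h2
    simp only at h2
    have e1 : (⟨d - (k + 1) + 1, by omega⟩ : Fin N) = ⟨d - k, by omega⟩ := Fin.ext (by
      simp only; omega)
    rw [e1] at h2
    have e2 : ((N : ℤ) - ((k + 1 : ℕ) : ℤ)) = (N : ℤ) - 1 - (k : ℤ) := by push_cast; ring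
    have e3 : ((N : ℤ) - ((d - (k + 1) + 1 : ℕ) : ℤ)) = (N : ℤ) - d + k := by
      have : ((d - (k + 1) + 1 : ℕ) : ℤ) = (d : ℤ) - k := by omega
      rw [this]; ring
    have e4 : ((N : ℤ) - 1 - 2 * ((d - (k + 1) : ℕ) : ℤ)) = -(2 * (d : ℤ) - N - 2 * k - 1) := by
      have : ((d - (k + 1) : ℕ) : ℤ) = (d : ℤ) - k - 1 := by omega
      rw [this]; ring
    rw [e2, e3, e4] at h2
    rw [prod_range_succ, prod_range_succ]
    have h3 : br (u ^ 2) ((N : ℤ) - 1 - k) * x (⟨k + 1, by omega⟩, ⟨d - (k + 1), by omega⟩) =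
        - (u ^ 2) ^ (2 * (d : ℤ) - N - 2 * k - 1) *
          (br (u ^ 2) ((N : ℤ) - d + k) * x (⟨k, by omega⟩, ⟨d - k, by omega⟩)) := by
      have h4 : (u ^ 2 : ℂ) ^ (2 * (d : ℤ) - N - 2 * k - 1) *
          (u ^ 2) ^ (-(2 * (d : ℤ) - N - 2 * k - 1)) = 1 := by
        rw [← zpow_add₀ hv]; simp
      linear_combination (u ^ 2 : ℂ) ^ (2 * (d : ℤ) - N - 2 * k - 1) * h2 -
        br (u ^ 2) ((N : ℤ) - 1 - k) * x (⟨k + 1, by omega⟩, ⟨d - (k + 1), by omega⟩) * h4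
    have h5 : (u ^ 2 : ℂ) ^ (((k + 1 : ℕ) : ℤ) * (2 * d - N - (k + 1 : ℕ))) =
        (u ^ 2) ^ ((k : ℤ) * (2 * d - N - k)) * (u ^ 2) ^ (2 * (d : ℤ) - N - 2 * k - 1) := by
      rw [← zpow_add₀ hv]
      congr 1
      push_cast
      ring
    rw [h5, pow_succ (-1 : ℂ) k]
    linear_combination (∏ i ∈ range k, br (u ^ 2) ((N : ℤ) - 1 - i)) * h3 -
      (u ^ 2 : ℂ) ^ (2 * (d : ℤ) - N - 2 * k - 1) * br (u ^ 2) ((N : ℤ) - d + k) * h1

theorem prod_ne {u : ℂ} (hu : Gen u) (d : ℕ) (hd : d < N) (k : ℕ) (hk : k ≤ d) :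
    (∏ i ∈ range k, br (u ^ 2) ((N : ℤ) - 1 - i)) ≠ 0 := by
  apply prod_ne_zero_iff.mpr
  intro i hi
  rw [mem_range] at hi
  have := hu.2 (N - 1 - i) (by omega)
  rw [show ((N - 1 - i : ℕ) : ℤ) = (N : ℤ) - 1 - i by omega] at this
  exact this

theorem hw_top {u : ℂ} (hu : Gen u) (d : ℕ) (hd : d < N) (x : Fin N × Fin N → ℂ)
    (hx : ∀ i j : Fin N, ∑ q, (W (u ^ 2) N).E (i, j) q * x q = 0) :
    x (⟨d, hd⟩, ⟨0, by omega⟩) =
      (-1) ^ d * (u ^ 2) ^ ((d : ℤ) * (d - N)) * x (⟨0, by omega⟩, ⟨d, hd⟩) := by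
  have h1 := hw_rec hu d hd x hx d le_rfl
  have h2 := prod_ne hu d hd d le_rfl
  have h3 : (∏ i ∈ range d, br (u ^ 2) ((N : ℤ) - d + i)) =
      ∏ i ∈ range d, br (u ^ 2) ((N : ℤ) - 1 - i) := by
    rw [← prod_range_reflect]
    refine prod_congr rfl fun i hi => ?_
    rw [mem_range] at hi
    congr 1
    have : ((d - 1 - i : ℕ) : ℤ) = (d : ℤ) - 1 - i := by omega
    rw [this]; ring
  have e1 : (⟨d - d, by omega⟩ : Fin N) = ⟨0, by omega⟩ := Fin.ext (by simp)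
  rw [h3, e1] at h1
  have e2 : (d : ℤ) * (2 * d - N - d) = d * (d - N) := by ring
  rw [e2] at h1
  apply mul_left_cancel₀ h2
  rw [h1]
  ring

theorem F_row_zero (v : ℂ) (n : ℕ) (hn : n ≠ 0) (i j : Fin N) (hi : (i : ℕ) = 0) :
    ((irr v N).F ^ n) i j = 0 := by
  obtain ⟨m, rfl⟩ := Nat.exists_eq_succ_of_ne_zero hn
  rw [pow_succ', Matrix.mul_apply]
  apply sum_eq_zero
  intro k _
  simp only [irr]
  rw [if_neg (by omega)]
  simp

theorem Rh_coef (u : ℂ) (d : Fin N) (z : Fin N) (hz : (z : ℕ) = 0)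
    (x : Fin N × Fin N → ℂ) :
    ∑ q, Rh u (irr (u ^ 2) N) (irr (u ^ 2) N) (z, d) q * x q =
      u ^ (((N : ℤ) - 1 - 2 * (d : ℕ)) * ((N : ℤ) - 1)) * x (d, z) := by
  have hR : ∀ q, Rh u (irr (u ^ 2) N) (irr (u ^ 2) N) (z, d) q =
      u ^ (((N : ℤ) - 1 - 2 * (d : ℕ)) * ((N : ℤ) - 1)) *
        (1 : Matrix (Fin N × Fin N) (Fin N × Fin N) ℂ) (d, z) q := by
    intro q
    simp only [Rh, R, submatrix_apply, Prod.swap_prod_mk, id_eq]
    rw [diagonal_mul, Matrix.sum_apply]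
    congr 1
    · simp only [irr]
      congr 1
      rw [hz]
      push_cast
      ring
    · rw [sum_eq_single 0]
      · simp [brf, Matrix.one_apply, Prod.ext_iff]
      · intro n _ hn
        rw [Matrix.smul_apply, kroneckerMap_apply, F_row_zero _ n hn z q.2 hz]
        simp
      · intro h
        exact absurd (mem_range.mpr (by unfold nb; omega)) h
  simp only [hR]
  rw [sum_eq_single (d, z)]
  · simp
  · intro q _ hq
    rw [one_apply_ne (Ne.symm hq)]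
    simp
  · simp

theorem lam_eq (u : ℂ) (hu : u ≠ 0) (d : Fin N) :
    u ^ (((N : ℤ) - 1 - 2 * (d : ℕ)) * ((N : ℤ) - 1)) *
      ((-1) ^ (d : ℕ) * (u ^ 2) ^ (((d : ℕ) : ℤ) * ((d : ℕ) - N))) = lam u N d := by
  unfold lam
  have hc : ((cc N d : ℕ) : ℤ) = 2 * (N : ℤ) - 1 - 2 * (d : ℕ) := by
    unfold cc
    have := d.2
    omega
  have h1 : ((2 * (N : ℤ) - 1 - 2 * (d : ℕ)) ^ 2 - 1) / 2 =
      2 * (((N : ℤ) - 1 - (d : ℕ)) * (N - (d : ℕ))) := by
    rw [show (2 * (N : ℤ) - 1 - 2 * (d : ℕ)) ^ 2 - 1 =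
      2 * (2 * (((N : ℤ) - 1 - (d : ℕ)) * (N - (d : ℕ)))) by ring]
    exact Int.mul_ediv_cancel_left _ (by norm_num)
  rw [hc, h1]
  have h2 : (u ^ 2 : ℂ) ^ (((d : ℕ) : ℤ) * ((d : ℕ) - N)) =
      u ^ (2 * (((d : ℕ) : ℤ) * ((d : ℕ) - N))) := by
    have h3 : (u : ℂ) ^ (2 : ℤ) = u ^ 2 := zpow_ofNat u 2
    rw [_root_.zpow_mul u 2 _, h3]
  rw [h2, mul_left_comm, ← zpow_add₀ hu]
  congr 2
  ring

theorem eig {u : ℂ} (hu : Gen u) (hMod : TaskMod) (hInt : TaskInt) (d : Fin N)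
    (φ : Matrix (Fin N × Fin N) (Fin (cc N d)) ℂ)
    (hφ : IsInt (irr (u ^ 2) (cc N d)) (W (u ^ 2) N) φ) :
    Rh u (irr (u ^ 2) N) (irr (u ^ 2) N) * φ = lam u N d • φ := by
  have hv : (u ^ 2 : ℂ) ≠ 0 := pow_ne_zero 2 hu.1
  have hM := (hMod (u ^ 2) hv).1 N
  have hRh : IsInt (W (u ^ 2) N) (W (u ^ 2) N) (Rh u (irr (u ^ 2) N) (irr (u ^ 2) N)) :=
    hInt u hu _ _ (irr (u ^ 2) N) (irr (u ^ 2) N) hM hM
  have hχ : IsInt (irr (u ^ 2) (cc N d)) (W (u ^ 2) N)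
      (Rh u (irr (u ^ 2) N) (irr (u ^ 2) N) * φ - lam u N d • φ) :=
    int_sub_smul _ (int_comp hφ hRh) hφ
  rw [← sub_eq_zero]
  apply int_zero hu hχ
  intro z hz
  -- homomorphic images of `e_0` are highest weight vectors
  have hw : ∀ χ : Matrix (Fin N × Fin N) (Fin (cc N d)) ℂ,
      IsInt (irr (u ^ 2) (cc N d)) (W (u ^ 2) N) χ → ∀ i j : Fin N,
        ∑ q, (W (u ^ 2) N).E (i, j) q * χ q z = 0 := by
    intro χ h i j
    have h1 := congrFun (congrFun h.e (i, j)) z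
    rw [Matrix.mul_apply, Matrix.mul_apply] at h1
    rw [← h1]
    apply sum_eq_zero
    intro k _
    simp only [irr]
    rw [if_neg (by omega)]
    simp
  have hd := d.2
  have hz0 : (0 : ℕ) < N := by omega
  obtain ⟨χ, hχe⟩ : ∃ χ, χ = Rh u (irr (u ^ 2) N) (irr (u ^ 2) N) * φ - lam u N d • φ := ⟨_, rfl⟩
  rw [← hχe] at hχ ⊢
  -- the coefficient of `e_0 ⊗ e_d`
  have hcoef : χ (⟨0, hz0⟩, ⟨d, hd⟩) z = 0 := by
    rw [hχe, Matrix.sub_apply, Matrix.smul_apply, Matrix.mul_apply]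
    have h1 := Rh_coef u d ⟨0, hz0⟩ rfl (fun q => φ q z)
    have h2 := hw_top hu d hd (fun q => φ q z) (hw φ hφ)
    simp only at h1 h2
    have e : (⟨(d : ℕ), hd⟩ : Fin N) = d := rfl
    rw [e] at h2 ⊢
    rw [h1, h2, ← lam_eq u hu.1 d, smul_eq_mul]
    ring
  rintro ⟨i, j⟩
  by_cases h : (i : ℕ) + j = d
  · have h1 := hw_rec hu d hd (fun q => χ q z) (hw _ hχ) i (by omega)
    rw [hcoef, mul_zero] at h1
    have h2 := prod_ne hu d hd i (by omega)
    rcases mul_eq_zero.mp h1 with h3 | h3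
    · exact absurd h3 h2
    · have e2 : (⟨(d : ℕ) - i, by omega⟩ : Fin N) = j := Fin.ext (by simp only; omega)
      rw [e2] at h3
      exact h3
  · by_contra h3
    have h4 := hχ.k (i, j) z h3
    simp only [W, tens, irr, cc] at h4
    omega

end Pool.Agent.H411R3.J
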