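import Pool.Agent.H550R3.Jones.Stmts

/-!
PROJECT JONES, TaskDec, half (Y): given homomorphisms `φ d` from the irreducible modules of
dimensions `2N-1, 2N-3, …, 1` into `V_N ⊗ V_N` with `φ d e_0 ≠ 0`, the inverse projections exist.
-/

set_option autoImplicit false

namespace Pool.Agent.H411R3.J

open Matrix Finset Pool.Agent.H550R3.Jones
open scoped Kronecker

theorem zpow_inj {u : ℂ} (hu : Gen u) {a b : ℤ} (h : (u ^ 2) ^ a = (u ^ 2) ^ b) : a = b := by
  have hv : (u ^ 2 : ℂ) ≠ 0 := pow_ne_zero 2 hu.1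
  have key : ∀ a b : ℤ, b < a → (u ^ 2 : ℂ) ^ a ≠ (u ^ 2) ^ b := by
    intro a b hab h
    have h1 : (u ^ 2 : ℂ) ^ (a - b) = 1 := by
      rw [zpow_sub₀ hv, h, div_self (zpow_ne_zero _ hv)]
    obtain ⟨n, hn⟩ := Int.eq_ofNat_of_zero_le (show 0 ≤ a - b by omega)
    have hn0 : 0 < n := by omega
    apply hu.2 n hn0
    rw [hn] at h1
    unfold br
    rw [h1, _root_.zpow_neg, h1]
    simp
  rcases lt_trichotomy a b with hlt | heq | hgt
  · exact absurd h.symm (key b a hlt)
  · exact heq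
  · exact absurd h (key a b hgt)

theorem card_sigma (N : ℕ) :
    Fintype.card (Σ d : Fin N, Fin (cc N d)) = Fintype.card (Fin N × Fin N) := by
  rw [Fintype.card_sigma, Fintype.card_prod, Fintype.card_fin]
  have h0 : ∀ d : Fin N, Fintype.card (Fin (cc N d)) = 2 * N - 1 - 2 * (d : ℕ) := by
    intro d
    rw [Fintype.card_fin]
    rfl
  rw [sum_congr rfl fun d _ => h0 d]
  have h : ∀ n : ℕ, ∑ d : Fin n, (2 * n - 1 - 2 * (d : ℕ)) = n * n := by
    intro n
    rw [Fin.sum_univ_eq_sum_range (fun d => 2 * n - 1 - 2 * d) n]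
    have h2 : ∀ k : ℕ, k ≤ n → ∑ d ∈ range k, (2 * n - 1 - 2 * d) + (n - k) * (n - k) = n * n := by
      intro k
      induction k with
      | zero => intro _; simp
      | succ k ih =>
        intro hk
        have h3 := ih (by omega)
        rw [sum_range_succ]
        obtain ⟨t, rfl⟩ : ∃ t, n = k + 1 + t := ⟨n - (k + 1), by omega⟩
        have h4 : k + 1 + t - k = t + 1 := by omega
        have h5 : k + 1 + t - (k + 1) = t := by omega
        rw [h4] at h3
        rw [h5]
        have h6 : 2 * (k + 1 + t) - 1 - 2 * k = 2 * t + 1 := by omega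
        rw [h6]
        nlinarith [h3]
    have := h2 n le_rfl
    simpa using this
  exact h N

variable {N : ℕ}

/-- the block matrix -/
def Phi (φ : ∀ d : Fin N, Matrix (Fin N × Fin N) (Fin (cc N d)) ℂ) :
    Matrix (Fin N × Fin N) (Σ d : Fin N, Fin (cc N d)) ℂ := fun p s => φ s.1 p s.2

theorem ker_zero {u : ℂ} (hu : Gen u)
    (φ : ∀ d : Fin N, Matrix (Fin N × Fin N) (Fin (cc N d)) ℂ)
    (hφ : ∀ d, IsInt (irr (u ^ 2) (cc N d)) (W (u ^ 2) N) (φ d))
    (h0 : ∀ d : Fin N, ∃ p, ∀ z : Fin (cc N d), (z : ℕ) = 0 → φ d p z ≠ 0)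
    (M : ℕ) : ∀ y : (Σ d : Fin N, Fin (cc N d)) → ℂ, (∀ s, M ≤ (s.2 : ℕ) → y s = 0) →
      Phi φ *ᵥ y = 0 → y = 0 := by
  induction M with
  | zero => intro y hy _; funext s; exact hy s (Nat.zero_le _)
  | succ M ih =>
    intro y hy hPy
    let z : (Σ d : Fin N, Fin (cc N d)) → ℂ := fun s =>
      ∑ j, (irr (u ^ 2) (cc N s.1)).E s.2 j * y ⟨s.1, j⟩
    have hz : ∀ (d : Fin N) (i : Fin (cc N d)) (h : (i : ℕ) + 1 < cc N d),
        z ⟨d, i⟩ = br (u ^ 2) ((cc N d : ℤ) - ((i : ℕ) + 1 : ℕ)) * y ⟨d, ⟨i + 1, h⟩⟩ := by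
      intro d i h
      simp only [z, irr]
      rw [sum_eq_single (⟨i + 1, h⟩ : Fin (cc N d))]
      · simp
      · intro b _ hb
        rw [if_neg]
        · simp
        · intro hb'
          exact hb (Fin.ext hb')
      · simp
    have hz' : ∀ (d : Fin N) (i : Fin (cc N d)), ¬ (i : ℕ) + 1 < cc N d → z ⟨d, i⟩ = 0 := by
      intro d i h
      simp only [z, irr]
      apply sum_eq_zero
      intro j _
      rw [if_neg]
      · simp
      · have := j.2
        omega
    have hPz : Phi φ *ᵥ z = 0 := by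
      have h1 : Phi φ *ᵥ z = (W (u ^ 2) N).E *ᵥ (Phi φ *ᵥ y) := by
        funext p
        simp only [mulVec, dotProduct, Phi, z]
        rw [Fintype.sum_sigma]
        simp only []
        have h2 : ∀ d : Fin N, ∑ x : Fin (cc N d), φ d p x *
            ∑ j, (irr (u ^ 2) (cc N d)).E x j * y ⟨d, j⟩ =
            ∑ j, (∑ x, φ d p x * (irr (u ^ 2) (cc N d)).E x j) * y ⟨d, j⟩ := by
          intro d
          simp only [mul_sum, sum_mul]
          rw [sum_comm]
          refine sum_congr rfl fun j _ => sum_congr rfl fun x _ => by ring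
        have h3 : ∀ (d : Fin N) (j : Fin (cc N d)),
            ∑ x, φ d p x * (irr (u ^ 2) (cc N d)).E x j =
              ∑ q, (W (u ^ 2) N).E p q * φ d q j := by
          intro d j
          have := congrFun (congrFun (hφ d).e p) j
          simpa only [Matrix.mul_apply] using this
        simp only [h2, h3]
        simp only [mul_sum, sum_mul]
        rw [show (∑ d : Fin N, ∑ j : Fin (cc N d), ∑ q, (W (u ^ 2) N).E p q * φ d q j * y ⟨d, j⟩) =
          ∑ d : Fin N, ∑ q, ∑ j : Fin (cc N d), (W (u ^ 2) N).E p q * φ d q j * y ⟨d, j⟩ from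
          sum_congr rfl fun d _ => sum_comm]
        rw [sum_comm]
        refine sum_congr rfl fun q _ => ?_
        rw [Fintype.sum_sigma]
        refine sum_congr rfl fun d _ => sum_congr rfl fun j _ => by ring
      rw [h1, hPy]
      simp
    have hzero : z = 0 := by
      apply ih z _ hPz
      rintro ⟨d, i⟩ hi
      simp only at hi
      by_cases h : (i : ℕ) + 1 < cc N d
      · rw [hz d i h, hy ⟨d, ⟨i + 1, h⟩⟩ (by simp; omega)]
        simp
      · exact hz' d i h
    -- `y` vanishes at positive indices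
    have hpos : ∀ (d : Fin N) (i : Fin (cc N d)), 0 < (i : ℕ) → y ⟨d, i⟩ = 0 := by
      intro d i hi
      have hlt := i.2
      have h1 := hz d ⟨(i : ℕ) - 1, by omega⟩ (by simp only; omega)
      rw [hzero] at h1
      simp only [Pi.zero_apply] at h1
      have h2 : (⟨(i : ℕ) - 1 + 1, by omega⟩ : Fin (cc N d)) = i := Fin.ext (by simp only; omega)
      rw [h2] at h1
      have h3 : br (u ^ 2) ((cc N d : ℤ) - (((i : ℕ) - 1 + 1 : ℕ) : ℤ)) ≠ 0 := by
        have := hu.2 (cc N d - (i : ℕ)) (by omega)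
        have h4 : ((cc N d : ℤ) - (((i : ℕ) - 1 + 1 : ℕ) : ℤ)) = ((cc N d - (i : ℕ) : ℕ) : ℤ) := by
          omega
        rw [h4]
        exact this
      rcases mul_eq_zero.mp h1.symm with h | h
      · exact absurd h h3
      · exact h
    funext s
    obtain ⟨d, i⟩ := s
    rcases Nat.eq_zero_or_pos (i : ℕ) with hi | hi
    · obtain ⟨p, hp⟩ := h0 d
      have h1 := congrFun hPy p
      simp only [mulVec, dotProduct, Phi, Pi.zero_apply] at h1
      rw [sum_eq_single (⟨d, i⟩ : Σ d : Fin N, Fin (cc N d))] at h1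
      · rcases mul_eq_zero.mp h1 with h | h
        · exact absurd h (hp i hi)
        · exact h
      · rintro ⟨e, j⟩ _ hne
        rcases Nat.eq_zero_or_pos (j : ℕ) with hj | hj
        · by_cases hφ0 : φ e p j = 0
          · simp [hφ0]
          · exfalso
            have h2 := (hφ e).k p j hφ0
            have h3 := (hφ d).k p i (hp i hi)
            rw [h2] at h3
            simp only [irr, cc] at h3
            have hd := d.2
            have he := e.2
            have : (e : ℕ) = d := by omega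
            have hed : e = d := Fin.ext this
            subst hed
            apply hne
            have : j = i := Fin.ext (by omega)
            rw [this]
        · rw [hpos e j hj]
          simp
      · intro h
        exact absurd (mem_univ _) h
    · exact hpos d i hi

theorem exists_psi {u : ℂ} (hu : Gen u)
    (φ : ∀ d : Fin N, Matrix (Fin N × Fin N) (Fin (cc N d)) ℂ)
    (hφ : ∀ d, IsInt (irr (u ^ 2) (cc N d)) (W (u ^ 2) N) (φ d))
    (h0 : ∀ d : Fin N, ∃ p, ∀ z : Fin (cc N d), (z : ℕ) = 0 → φ d p z ≠ 0) :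
    ∃ ψ : ∀ d : Fin N, Matrix (Fin (cc N d)) (Fin N × Fin N) ℂ,
      (∀ d, IsInt (W (u ^ 2) N) (irr (u ^ 2) (cc N d)) (ψ d)) ∧
      (∀ d, ψ d * φ d = 1) ∧ (∀ d e, d ≠ e → ψ d * φ e = 0) ∧ ∑ d, φ d * ψ d = 1 := by
  classical
  -- left inverse
  have hinj : Function.Injective (Matrix.toLin' (Phi φ)) := by
    rw [← LinearMap.ker_eq_bot, LinearMap.ker_eq_bot']
    intro y hy
    rw [Matrix.toLin'_apply] at hy
    refine ker_zero hu φ hφ h0 (2 * N) y ?_ hy
    rintro ⟨d, i⟩ hi
    exfalso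
    have := i.2
    simp only [cc] at this hi
    omega
  obtain ⟨g, hg⟩ := LinearMap.exists_leftInverse_of_injective _
    (LinearMap.ker_eq_bot.mpr hinj)
  let Ψ : Matrix (Σ d : Fin N, Fin (cc N d)) (Fin N × Fin N) ℂ := LinearMap.toMatrix' g
  have hΨΦ : Ψ * Phi φ = 1 := by
    have h1 : LinearMap.toMatrix' (g ∘ₗ Matrix.toLin' (Phi φ)) = 1 := by
      rw [hg]; exact LinearMap.toMatrix'_id
    rw [LinearMap.toMatrix'_comp, LinearMap.toMatrix'_toLin'] at h1
    exact h1
  have hΦΨ : Phi φ * Ψ = 1 :=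
    (Matrix.mul_eq_one_comm_of_equiv (Fintype.card_eq.mp (card_sigma N)).some).mp hΨΦ
  let D (X : ∀ d : Fin N, Matrix (Fin (cc N d)) (Fin (cc N d)) ℂ) :
      Matrix (Σ d : Fin N, Fin (cc N d)) (Σ d : Fin N, Fin (cc N d)) ℂ := Matrix.blockDiagonal' X
  have hcomm : ∀ (A : Matrix (Fin N × Fin N) (Fin N × Fin N) ℂ)
      (X : ∀ d : Fin N, Matrix (Fin (cc N d)) (Fin (cc N d)) ℂ),
      (∀ d, φ d * X d = A * φ d) → Ψ * A = D X * Ψ := by
    intro A X hAX
    have h1 : Phi φ * D X = A * Phi φ := by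
      ext p s
      obtain ⟨d, i⟩ := s
      rw [Matrix.mul_apply, Fintype.sum_sigma, Matrix.mul_apply]
      rw [sum_eq_single d]
      · have h2 := congrFun (congrFun (hAX d) p) i
        rw [Matrix.mul_apply, Matrix.mul_apply] at h2
        simp only [D, Phi, Matrix.blockDiagonal'_apply_eq]
        exact h2
      · intro e _ hed
        apply sum_eq_zero
        intro j _
        simp only [D]
        rw [Matrix.blockDiagonal'_apply_ne _ _ _ hed]
        simp
      · simp
    calc Ψ * A = Ψ * A * (Phi φ * Ψ) := by rw [hΦΨ, Matrix.mul_one]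
      _ = Ψ * (A * Phi φ) * Ψ := by simp only [Matrix.mul_assoc]
      _ = Ψ * (Phi φ * D X) * Ψ := by rw [h1]
      _ = (Ψ * Phi φ) * D X * Ψ := by simp only [Matrix.mul_assoc]
      _ = D X * Ψ := by rw [hΨΦ, Matrix.one_mul]
  have hblock : ∀ (A : Matrix (Fin N × Fin N) (Fin N × Fin N) ℂ)
      (X : ∀ d : Fin N, Matrix (Fin (cc N d)) (Fin (cc N d)) ℂ),
      (∀ d, φ d * X d = A * φ d) → ∀ d (i : Fin (cc N d)) (p : Fin N × Fin N),
        ∑ q, Ψ ⟨d, i⟩ q * A q p = ∑ j, X d i j * Ψ ⟨d, j⟩ p := by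
    intro A X hAX d i p
    have h1 := congrFun (congrFun (hcomm A X hAX) ⟨d, i⟩) p
    rw [Matrix.mul_apply, Matrix.mul_apply, Fintype.sum_sigma] at h1
    rw [h1, sum_eq_single d]
    · simp only [D, Matrix.blockDiagonal'_apply_eq]
    · intro e _ hed
      apply sum_eq_zero
      intro j _
      simp only [D]
      rw [Matrix.blockDiagonal'_apply_ne _ _ _ (Ne.symm hed)]
      simp
    · simp
  let ψ : ∀ d : Fin N, Matrix (Fin (cc N d)) (Fin N × Fin N) ℂ := fun d i p => Ψ ⟨d, i⟩ p
  refine ⟨ψ, ?_, ?_, ?_, ?_⟩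
  · intro d
    refine ⟨?_, ?_, ?_⟩
    · ext i p
      rw [Matrix.mul_apply, Matrix.mul_apply]
      exact hblock (W (u ^ 2) N).E (fun d => (irr (u ^ 2) (cc N d)).E) (fun d => (hφ d).e) d i p
    · ext i p
      rw [Matrix.mul_apply, Matrix.mul_apply]
      exact hblock (W (u ^ 2) N).F (fun d => (irr (u ^ 2) (cc N d)).F) (fun d => (hφ d).f) d i p
    · intro i p hip
      have h1 := hblock (diagonal fun p => (u ^ 2) ^ (W (u ^ 2) N).wt p)
        (fun d => diagonal fun i => (u ^ 2) ^ (irr (u ^ 2) (cc N d)).wt i) (by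
          intro d
          ext p i
          rw [Matrix.mul_diagonal, Matrix.diagonal_mul]
          by_cases h : φ d p i = 0
          · simp [h]
          · rw [(hφ d).k p i h]
            ring) d i p
      rw [sum_eq_single p, sum_eq_single i] at h1
      · rw [diagonal_apply_eq, diagonal_apply_eq, mul_comm] at h1
        exact (zpow_inj hu (mul_right_cancel₀ hip h1)).symm
      · intro j _ hj
        rw [diagonal_apply_ne _ (Ne.symm hj)]
        simp
      · simp
      · intro q _ hq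
        rw [diagonal_apply_ne _ hq]
        simp
      · simp
  · intro d
    ext i j
    have h1 := congrFun (congrFun hΨΦ ⟨d, i⟩) ⟨d, j⟩
    rw [Matrix.mul_apply] at h1 ⊢
    rw [show (1 : Matrix (Σ d : Fin N, Fin (cc N d)) (Σ d : Fin N, Fin (cc N d)) ℂ)
      ⟨d, i⟩ ⟨d, j⟩ = (1 : Matrix (Fin (cc N d)) (Fin (cc N d)) ℂ) i j by
        simp [Matrix.one_apply]] at h1
    exact h1
  · intro d e hde
    ext i j
    have h1 := congrFun (congrFun hΨΦ ⟨d, i⟩) ⟨e, j⟩
    rw [Matrix.mul_apply] at h1 ⊢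
    rw [show (1 : Matrix (Σ d : Fin N, Fin (cc N d)) (Σ d : Fin N, Fin (cc N d)) ℂ)
      ⟨d, i⟩ ⟨e, j⟩ = 0 by
        rw [Matrix.one_apply_ne]
        intro h
        exact hde (congrArg Sigma.fst h)] at h1
    exact h1
  · ext p q
    have h1 := congrFun (congrFun hΦΨ p) q
    rw [Matrix.mul_apply, Fintype.sum_sigma] at h1
    rw [Matrix.sum_apply, ← h1]
    refine sum_congr rfl fun d _ => ?_
    rw [Matrix.mul_apply]
    rfl

end Pool.Agent.H411R3.J
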